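import Pool.Agent.Helper5.KPA.StT
import Pool.Agent.Helper16.KP.M_NUL

/-!
# Project KP, module TRL: locally square integrable rational functions are polynomials
-/

set_option autoImplicit false

namespace Pool.Agent.Helper13.KPA

open Pool.Agent.Helper5.KPA Pool.Agent.Helper52.KP MvPolynomial MeasureTheory Filter Metric
open scoped Topology

/-! ### One variable -/

private theorem trl_one (r : ℝ) (hr : 0 < r) :
    ¬ IntegrableOn (fun x : ℂ => (‖x‖ ^ 2)⁻¹) (ball 0 r) := by
  intro h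
  rw [integrableOn_fun_norm_addHaar (μ := volume) (f := fun y : ℝ => (y ^ 2)⁻¹),
    Complex.finrank_real_complex] at h
  have h2 : IntegrableOn (fun y : ℝ => y ^ (-1 : ℝ)) (Set.Ioo 0 r) := by
    refine h.congr_fun (fun y hy => ?_) measurableSet_Ioo
    have hy0 : y ≠ 0 := hy.1.ne'
    simp only [smul_eq_mul]
    rw [Real.rpow_neg_one]
    norm_num
    field_simp
  rw [intervalIntegral.integrableOn_Ioo_rpow_iff hr] at h2
  exact lt_irrefl _ h2

private theorem trl_two (r : ℝ) (hr : 0 < r) (s₀ : ℂ) (A : ℝ) (hA : 0 < A) :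
    ∫⁻ s in ball s₀ r, ENNReal.ofReal (A * (‖s - s₀‖ ^ 2)⁻¹) = ⊤ := by
  have h1 : ∫⁻ s in ball (0 : ℂ) r, ENNReal.ofReal (A * (‖s‖ ^ 2)⁻¹) = ⊤ := by
    by_contra hne
    have hm : Measurable fun x : ℂ => A * (‖x‖ ^ 2)⁻¹ := by fun_prop
    have h2 : IntegrableOn (fun x : ℂ => A * (‖x‖ ^ 2)⁻¹) (ball 0 r) := by
      refine ⟨hm.aestronglyMeasurable, ?_⟩
      rw [hasFiniteIntegral_iff_ofReal (Eventually.of_forall fun x => by positivity)]
      exact lt_top_iff_ne_top.2 hne
    have h3 : IntegrableOn (fun x : ℂ => (‖x‖ ^ 2)⁻¹) (ball 0 r) := by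
      refine IntegrableOn.congr_fun (h2.const_mul A⁻¹) (fun x _ => ?_) measurableSet_ball
      rw [← mul_assoc, inv_mul_cancel₀ hA.ne', one_mul]
    exact trl_one r hr h3
  rw [← h1, ← lintegral_indicator measurableSet_ball, ← lintegral_indicator measurableSet_ball,
    ← lintegral_sub_right_eq_self ((ball (0 : ℂ) r).indicator fun s =>
      ENNReal.ofReal (A * (‖s‖ ^ 2)⁻¹)) s₀]
  refine lintegral_congr fun s => ?_
  by_cases hs : s ∈ ball s₀ r
  · have hs' : s - s₀ ∈ ball (0 : ℂ) r := by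
      rw [mem_ball_zero_iff, ← dist_eq_norm]
      exact hs
    rw [Set.indicator_of_mem hs, Set.indicator_of_mem hs']
  · have hs' : s - s₀ ∉ ball (0 : ℂ) r := by
      rw [mem_ball_zero_iff, ← dist_eq_norm]
      exact hs
    rw [Set.indicator_of_notMem hs, Set.indicator_of_notMem hs']

/-- restriction to a line -/
private noncomputable def ln {M : ℕ} (D : MvPolynomial (Fin M) ℂ) (b w : Fin M → ℂ) :
    Polynomial ℂ := aeval (fun i => Polynomial.C (b i) + Polynomial.X * Polynomial.C (w i)) D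

private theorem ln_eval {M : ℕ} (D : MvPolynomial (Fin M) ℂ) (b w : Fin M → ℂ) (s : ℂ) :
    (ln D b w).eval s = ev D (b + s • w) := by
  unfold ln ev
  induction D using MvPolynomial.induction_on with
  | C a => simp
  | add p q hp hq => rw [map_add, Polynomial.eval_add, hp, hq, map_add]
  | mul_X p i hp =>
    rw [map_mul, Polynomial.eval_mul, hp, map_mul, aeval_X, eval_X]
    simp only [Polynomial.eval_add, Polynomial.eval_mul, Polynomial.eval_C, Polynomial.eval_X,
      Pi.add_apply, Pi.smul_apply, smul_eq_mul]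

/-- a zero of the denominator on the line makes the integral infinite -/
private theorem trl_line (P : Polynomial ℂ) (hP : P ≠ 0) (r : ℝ) (s₀ : ℂ) (hs₀ : ‖s₀‖ < r)
    (h0 : P.eval s₀ = 0) (f : ℂ → ℂ) (c : ℝ) (hc : 0 < c) (hf : ∀ s ∈ ball (0 : ℂ) r, c ≤ ‖f s‖) :
    ∫⁻ s in ball (0 : ℂ) r, ENNReal.ofReal (‖f s / P.eval s‖ ^ 2) = ⊤ := by
  obtain ⟨Q, hQ⟩ := Polynomial.dvd_iff_isRoot.2 h0
  obtain ⟨B, hB⟩ := (isCompact_closedBall (0 : ℂ) r).exists_bound_of_continuousOn
    (Q.continuous.continuousOn)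
  have hB' : ∀ s ∈ ball (0 : ℂ) r, ‖Q.eval s‖ ≤ |B| + 1 := fun s hs =>
    (hB s (ball_subset_closedBall hs)).trans ((le_abs_self B).trans (by linarith))
  have hBp : 0 < |B| + 1 := by positivity
  set A : ℝ := (c / (|B| + 1)) ^ 2 with hA
  have hAp : 0 < A := by positivity
  set r' : ℝ := r - ‖s₀‖ with hr'
  have hr'p : 0 < r' := by linarith
  have hsub : ball s₀ r' ⊆ ball (0 : ℂ) r := by
    intro s hs
    rw [mem_ball_zero_iff]
    rw [mem_ball, dist_eq_norm] at hs
    have := norm_add_le (s - s₀) s₀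
    rw [sub_add_cancel] at this
    linarith
  have hroots : ∀ᵐ s : ℂ, P.eval s ≠ 0 := by
    have hfin : {s : ℂ | P.eval s = 0}.Finite := by
      refine (P.roots.toFinset.finite_toSet).subset fun s hs => ?_
      simp only [Finset.mem_coe, Multiset.mem_toFinset]
      exact (Polynomial.mem_roots hP).2 hs
    have := hfin.measure_zero (volume : Measure ℂ)
    rw [ae_iff]
    simpa using this
  have h1 : ∫⁻ s in ball s₀ r', ENNReal.ofReal (A * (‖s - s₀‖ ^ 2)⁻¹) ≤
      ∫⁻ s in ball s₀ r', ENNReal.ofReal (‖f s / P.eval s‖ ^ 2) := by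
    refine lintegral_mono_ae ?_
    rw [ae_restrict_iff' measurableSet_ball]
    filter_upwards [hroots] with s hs hsb
    refine ENNReal.ofReal_le_ofReal ?_
    have hPs : P.eval s = (s - s₀) * Q.eval s := by
      rw [hQ]
      simp
    have hne : s - s₀ ≠ 0 := by
      intro h
      rw [hPs, h, zero_mul] at hs
      exact hs rfl
    have hQne : Q.eval s ≠ 0 := by
      intro h
      rw [hPs, h, mul_zero] at hs
      exact hs rfl
    rw [hPs, norm_div, norm_mul]
    have hn1 : 0 < ‖s - s₀‖ := norm_pos_iff.2 hne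
    have hn2 : 0 < ‖Q.eval s‖ := norm_pos_iff.2 hQne
    have e1 : A * (‖s - s₀‖ ^ 2)⁻¹ = (c / (‖s - s₀‖ * (|B| + 1))) ^ 2 := by
      rw [hA]
      field_simp
    rw [e1]
    refine pow_le_pow_left₀ (by positivity) ?_ 2
    refine div_le_div₀ (norm_nonneg _) (hf s (hsub hsb)) (by positivity) ?_
    exact mul_le_mul_of_nonneg_left (hB' s (hsub hsb)) hn1.le
  rw [trl_two r' hr'p s₀ A hAp, top_le_iff] at h1
  rw [eq_top_iff, ← h1]
  exact lintegral_mono_set hsub

/-! ### Several variables -/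

private theorem trl_key {M : ℕ} (N D : MvPolynomial (Fin M) ℂ) (v₀ v₁ : Fin M → ℂ)
    (h0 : ev D v₀ = 0) (h1 : ev D v₁ ≠ 0) (hN : ev N v₀ ≠ 0)
    (hint : ∀ c : ℝ, ∫⁻ v in {v : Fin M → ℂ | ‖v‖ ≤ c},
      ENNReal.ofReal (‖ev N v / ev D v‖ ^ 2) ≠ ⊤) : False := by
  have hNc : Continuous fun v : Fin M → ℂ => ev N v := MvPolynomial.continuous_eval N
  have hDc : Continuous fun v : Fin M → ℂ => ev D v := MvPolynomial.continuous_eval D
  set w : Fin M → ℂ := v₁ - v₀ with hw
  -- a ball on which the numerator is bounded below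
  set c : ℝ := ‖ev N v₀‖ / 2 with hc
  have hNp : 0 < ‖ev N v₀‖ := norm_pos_iff.2 hN
  have hcp : 0 < c := by positivity
  obtain ⟨ρ', hρ', hρN⟩ : ∃ ρ' > 0, ∀ v ∈ ball v₀ ρ', c ≤ ‖ev N v‖ := by
    have h2 : ∀ᶠ v in 𝓝 v₀, c < ‖ev N v‖ :=
      (hNc.norm.tendsto v₀).eventually (lt_mem_nhds (by linarith))
    obtain ⟨ρ', hρ', h3⟩ := Metric.eventually_nhds_iff_ball.1 h2
    exact ⟨ρ', hρ', fun v hv => (h3 v hv).le⟩
  -- the polynomial on the line through `v₀`
  have hP0 : ln D v₀ w ≠ 0 := by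
    intro h
    have h2 := ln_eval D v₀ w 1
    rw [h, one_smul, hw] at h2
    simp only [Polynomial.eval_zero] at h2
    rw [add_sub_cancel] at h2
    exact h1 h2.symm
  -- a good radius
  obtain ⟨ε, hε, hεw, hεs⟩ : ∃ ε : ℝ, 0 < ε ∧ 2 * ε * ‖w‖ < ρ' / 2 ∧
      ∀ s : ℂ, ‖s‖ = ε → (ln D v₀ w).eval s ≠ 0 := by
    have hfin : ((fun s : ℂ => ‖s‖) '' (((ln D v₀ w).roots.toFinset : Finset ℂ) : Set ℂ)).Finite :=
      ((ln D v₀ w).roots.toFinset.finite_toSet).image _
    have hinf : (Set.Ioo (0 : ℝ) (ρ' / (4 * (‖w‖ + 1)))).Infinite :=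
      Set.Ioo_infinite (by positivity)
    obtain ⟨ε, hε1, hε2⟩ := (hinf.sdiff hfin).nonempty
    refine ⟨ε, hε1.1, ?_, fun s hs h => hε2 ⟨s, ?_, hs⟩⟩
    · have h2 := hε1.2
      rw [lt_div_iff₀ (by positivity)] at h2
      have h3 := hε1.1
      nlinarith [norm_nonneg w]
    · simp only [Finset.mem_coe, Multiset.mem_toFinset]
      exact (Polynomial.mem_roots hP0).2 h
  -- lower bound on the circle
  have hjc : Continuous fun q : (Fin M → ℂ) × ℂ => ev D (q.1 + q.2 • w) :=
    hDc.comp (continuous_fst.add (continuous_snd.smul continuous_const))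
  obtain ⟨m₀, hm₀, hm⟩ : ∃ m₀ : ℝ, 0 < m₀ ∧ ∀ s ∈ sphere (0 : ℂ) ε, m₀ < ‖ev D (v₀ + s • w)‖ := by
    have hcont : ContinuousOn (fun s : ℂ => ‖ev D (v₀ + s • w)‖) (sphere (0 : ℂ) ε) :=
      (hjc.comp (continuous_const.prodMk continuous_id)).norm.continuousOn
    have hne : (sphere (0 : ℂ) ε).Nonempty := NormedSpace.sphere_nonempty.2 hε.le
    obtain ⟨s₁, hs₁, hmin⟩ := (isCompact_sphere (0 : ℂ) ε).exists_isMinOn hne hcont
    have hp : 0 < ‖ev D (v₀ + s₁ • w)‖ := by
      rw [← ln_eval, norm_pos_iff]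
      exact hεs s₁ (mem_sphere_zero_iff_norm.1 hs₁)
    exact ⟨‖ev D (v₀ + s₁ • w)‖ / 2, by positivity, fun s hs =>
      lt_of_lt_of_le (by linarith) (hmin hs)⟩
  have hev : ∀ᶠ b in 𝓝 v₀, ∀ s ∈ sphere (0 : ℂ) ε, m₀ < ‖ev D (b + s • w)‖ := by
    refine (isCompact_sphere (0 : ℂ) ε).eventually_forall_of_forall_eventually fun s hs => ?_
    exact (hjc.norm.tendsto (v₀, s)).eventually (lt_mem_nhds (hm s hs))
  obtain ⟨ρ₁, hρ₁, hball⟩ := Metric.eventually_nhds_iff_ball.1 hev
  set ρ : ℝ := min ρ₁ (ρ' / 2) with hρ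
  have hρp : 0 < ρ := lt_min hρ₁ (by positivity)
  -- Tonelli
  let Fn : (Fin M → ℂ) → ENNReal := fun v => ENNReal.ofReal (‖ev N v / ev D v‖ ^ 2)
  have hFm : Measurable Fn :=
    (((hNc.measurable.div hDc.measurable).norm).pow_const 2).ennreal_ofReal
  have hjm : Measurable fun q : (Fin M → ℂ) × ℂ => Fn (q.1 + q.2 • w) :=
    hFm.comp (continuous_fst.add (continuous_snd.smul continuous_const)).measurable
  have hfinal : ∫⁻ b in ball v₀ ρ, (∫⁻ s in ball (0 : ℂ) (2 * ε), Fn (b + s • w)) ≠ ⊤ := by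
    rw [lintegral_lintegral_swap hjm.aemeasurable]
    set c' : ℝ := ‖v₀‖ + ρ + 2 * ε * ‖w‖ with hc'
    have h2 : ∫⁻ s in ball (0 : ℂ) (2 * ε), (∫⁻ b in ball v₀ ρ, Fn (b + s • w)) ≤
        ∫⁻ _s in ball (0 : ℂ) (2 * ε), (∫⁻ v in {v : Fin M → ℂ | ‖v‖ ≤ c'}, Fn v) := by
      refine setLIntegral_mono' measurableSet_ball fun s hs => ?_
      have hms : MeasurableSet {v : Fin M → ℂ | ‖v‖ ≤ c'} :=
        measurableSet_le continuous_norm.measurable measurable_const
      rw [← lintegral_indicator measurableSet_ball, ← lintegral_indicator hms,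
        ← lintegral_add_right_eq_self ({v : Fin M → ℂ | ‖v‖ ≤ c'}.indicator Fn) (s • w)]
      refine lintegral_mono fun b => ?_
      by_cases hb : b ∈ ball v₀ ρ
      · have hb' : b + s • w ∈ {v : Fin M → ℂ | ‖v‖ ≤ c'} := by
          rw [Set.mem_ofPred_eq]
          rw [mem_ball_zero_iff] at hs
          rw [mem_ball, dist_eq_norm] at hb
          have e1 : ‖b‖ ≤ ‖v₀‖ + ρ := by
            have := norm_add_le v₀ (b - v₀)
            rw [add_sub_cancel] at this
            linarith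
          have e2 : ‖s • w‖ ≤ 2 * ε * ‖w‖ := by
            rw [norm_smul]
            exact mul_le_mul_of_nonneg_right hs.le (norm_nonneg _)
          exact (norm_add_le _ _).trans (by linarith)
        rw [Set.indicator_of_mem hb, Set.indicator_of_mem hb']
      · rw [Set.indicator_of_notMem hb]
        exact bot_le
    refine ne_top_of_le_ne_top ?_ h2
    rw [setLIntegral_const]
    exact ENNReal.mul_ne_top (hint c') (measure_ball_lt_top).ne
  have hae := ae_lt_top (hjm.lintegral_prod_right' (ν := volume.restrict (ball (0 : ℂ) (2 * ε))))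
    hfinal
  rw [ae_restrict_iff' measurableSet_ball] at hae
  -- the denominator is bounded below near `v₀`
  have hlow : ∀ᵐ b : Fin M → ℂ, b ∈ ball v₀ ρ → m₀ ≤ ‖ev D b‖ := by
    filter_upwards [hae] with b hb hbb
    have hb1 := hb hbb
    have hbρ₁ : b ∈ ball v₀ ρ₁ := ball_subset_ball (min_le_left _ _) hbb
    have hsph := hball b hbρ₁
    set P := ln D b w with hP
    have hPe : ∀ s, P.eval s = ev D (b + s • w) := fun s => ln_eval D b w s
    have hPne : P ≠ 0 := by
      intro h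
      obtain ⟨s, hs⟩ := (NormedSpace.sphere_nonempty (x := (0 : ℂ)) (r := ε)).2 hε.le
      have h2 := hsph s hs
      rw [← hPe, h, Polynomial.eval_zero, norm_zero] at h2
      linarith
    have hnz : ∀ s : ℂ, ‖s‖ < 2 * ε → P.eval s ≠ 0 := by
      intro s₀ hs₀ h
      have h2 := trl_line P hPne (2 * ε) s₀ hs₀ h (fun s => ev N (b + s • w)) c hcp (fun s hs => by
        refine hρN _ ?_
        rw [mem_ball, dist_eq_norm]
        rw [mem_ball_zero_iff] at hs
        have e1 : ‖b - v₀‖ < ρ' / 2 := by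
          rw [← dist_eq_norm]
          exact lt_of_lt_of_le hbb (min_le_right _ _)
        have e2 : ‖s • w‖ ≤ 2 * ε * ‖w‖ := by
          rw [norm_smul]
          exact mul_le_mul_of_nonneg_right hs.le (norm_nonneg _)
        have e3 : b + s • w - v₀ = (b - v₀) + s • w := by abel
        rw [e3]
        exact lt_of_le_of_lt (norm_add_le _ _) (by linarith))
      have h3 : ∫⁻ s in ball (0 : ℂ) (2 * ε), Fn (b + s • w) = ⊤ := by
        rw [← h2]
        refine lintegral_congr fun s => ?_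
        simp only [Fn]
        rw [hPe]
      exact absurd h3 hb1.ne
    have hmax : ‖(P.eval 0)⁻¹‖ ≤ m₀⁻¹ := by
      refine Complex.norm_le_of_forall_mem_frontier_norm_le (U := ball (0 : ℂ) ε)
        (f := fun s => (P.eval s)⁻¹) isBounded_ball ?_ ?_ (subset_closure (mem_ball_self hε))
      · refine DifferentiableOn.diffContOnCl ?_
        rw [closure_ball _ hε.ne']
        intro s hs
        refine (P.differentiable.differentiableAt.inv (hnz s ?_)).differentiableWithinAt
        rw [mem_closedBall_zero_iff] at hs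
        linarith
      · intro s hs
        rw [frontier_ball _ hε.ne'] at hs
        rw [norm_inv]
        refine inv_anti₀ hm₀ ?_
        rw [hPe]
        exact (hsph s hs).le
    rw [norm_inv, hPe, zero_smul, add_zero] at hmax
    have hDb : 0 < ‖ev D b‖ := by
      have := hnz 0 (by simpa using hε)
      rw [hPe, zero_smul, add_zero] at this
      exact norm_pos_iff.2 this
    exact (inv_le_inv₀ hDb hm₀).1 hmax
  -- contradiction
  have hopen : IsOpen (ball v₀ ρ ∩ {b | ‖ev D b‖ < m₀}) :=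
    isOpen_ball.inter (isOpen_lt hDc.norm continuous_const)
  have hpos := hopen.measure_pos (volume : Measure (Fin M → ℂ))
    ⟨v₀, mem_ball_self hρp, by rw [Set.mem_ofPred_eq, h0, norm_zero]; exact hm₀⟩
  refine hpos.ne' ?_
  rw [ae_iff] at hlow
  refine measure_mono_null (fun b hb => ?_) hlow
  rw [Set.mem_ofPred_eq]
  push Not
  exact ⟨hb.1, hb.2⟩

theorem hTRL : StTRL := by
  intro M N D hD hint
  obtain ⟨N', D', g, hrel, hgN, hgD⟩ := UniqueFactorizationMonoid.exists_reduced_factors' N D hD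
  have hg0 : g ≠ 0 := by
    rintro rfl
    rw [zero_mul] at hgD
    exact hD hgD.symm
  have hD'0 : D' ≠ 0 := by
    rintro rfl
    rw [mul_zero] at hgD
    exact hD hgD.symm
  by_cases hu : IsUnit D'
  · rw [← hgN, ← hgD]
    exact mul_dvd_mul_left g (hu.dvd)
  exfalso
  obtain ⟨π, hπ, hπD⟩ := WfDvdMonoid.exists_irreducible_factor hu hD'0
  have hπN : ¬ π ∣ N' := fun h => hπ.not_isUnit (hrel h hπD)
  -- Nullstellensatz
  obtain ⟨v₀, hv0, hvN⟩ : ∃ v₀ : Fin M → ℂ, ev π v₀ = 0 ∧ ev N' v₀ ≠ 0 := by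
    by_contra hcon
    push Not at hcon
    have h1 : N' ∈ vanishingIdeal ℂ (zeroLocus ℂ (Ideal.span {π})) := by
      rw [mem_vanishingIdeal_iff]
      intro x hx
      rw [mem_zeroLocus_iff] at hx
      have h2 := hx π (Ideal.subset_span rfl)
      rw [MvPolynomial.aeval_eq_eval] at h2 ⊢
      exact hcon x h2
    rw [vanishingIdeal_zeroLocus_eq_radical] at h1
    have hprime : (Ideal.span {π} : Ideal (MvPolynomial (Fin M) ℂ)).IsPrime :=
      (Ideal.span_singleton_prime hπ.ne_zero).2 hπ.prime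
    rw [hprime.radical, Ideal.mem_span_singleton] at h1
    exact hπN h1
  have hv0' : ev D' v₀ = 0 := by
    obtain ⟨q, hq⟩ := hπD
    have h3 : ev (π * q) v₀ = ev π v₀ * ev q v₀ := map_mul _ _ _
    rw [hq, h3, hv0, zero_mul]
  obtain ⟨v₁, hv1⟩ : ∃ v₁ : Fin M → ℂ, ev D' v₁ ≠ 0 := by
    by_contra hcon
    push Not at hcon
    exact hD'0 (MvPolynomial.funext fun x => (hcon x).trans (map_zero _).symm)
  refine trl_key N' D' v₀ v₁ hv0' hv1 hvN fun c => ?_
  have hnul := Pool.Agent.Helper16.KP.hNUL M g hg0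
  have heq : ∫⁻ v in {v : Fin M → ℂ | ‖v‖ ≤ c}, ENNReal.ofReal (‖ev N' v / ev D' v‖ ^ 2) =
      ∫⁻ v in {v : Fin M → ℂ | ‖v‖ ≤ c}, ENNReal.ofReal (‖ev N v / ev D v‖ ^ 2) := by
    refine lintegral_congr_ae (ae_restrict_of_ae ?_)
    have h2 : ∀ᵐ v : Fin M → ℂ, ev g v ≠ 0 := by
      rw [ae_iff]
      simpa using hnul
    filter_upwards [h2] with v hv
    have e1 : ev (g * N') v = ev g v * ev N' v := map_mul _ _ _
    have e2 : ev (g * D') v = ev g v * ev D' v := map_mul _ _ _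
    rw [← hgN, ← hgD, e1, e2, mul_div_mul_left _ _ hv]
  rw [heq]
  exact hint c

end Pool.Agent.Helper13.KPA
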